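import Pool.Agent.N830.PS.Data
import Pool.Agent.H361R3.Exist

/-!
# Alternating, symmetric and generic blocks
-/

set_option autoImplicit false
set_option linter.unusedSectionVars false

namespace Pool.Agent.N830.PS

open Finset MvPolynomial Pool.Agent.R837.FE
open Pool.Agent.TH144.NV (act)

theorem rc_one {k : Type} [Field k] (μ : kˣ) : rc μ 1 0 = 1 := by
  simp [rc]

theorem rc_prod {k : Type} [Field k] (μ : kˣ) {ι : Type*} (S : Finset ι) (x : ι → kˣ) (e : ι → ℤ) :
    ∏ i ∈ S, rc μ (x i) (e i) = rc μ (∏ i ∈ S, x i) (∑ i ∈ S, e i) := by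
  classical
  induction S using Finset.induction_on with
  | empty => simp [rc]
  | insert a S ha ih => rw [prod_insert ha, prod_insert ha, sum_insert ha, ih, rc_mul_rc]

theorem rc_pow {k : Type} [Field k] (μ : kˣ) (x : kˣ) (e : ℤ) (n : ℕ) :
    rc μ x e ^ n = rc μ (x ^ n) (n * e) := by
  induction n with
  | zero => simp [rc]
  | succ n ih =>
    rw [pow_succ, ih, rc_mul_rc, ← pow_succ]
    congr 1
    push_cast
    ring

section
variable {k : Type} [Field k] {G : Type} [Group G] {N : ℕ} {w : Fin N → ℕ} {α : Fin N → G →* kˣ}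

theorem sum_alt {m : ℕ} (e : Fin m → ℤ) (t : ℤ) :
    (∑ a : Fin m, ∑ b : Fin m, if a ≠ b ∧ True then e a + e b + t else 0) =
      ((m : ℤ) - 1) * (2 * ∑ a, e a + m * t) := by
  have h1 : ∀ a : Fin m, (∑ b : Fin m, if a ≠ b ∧ True then e a + e b + t else 0) =
      m * e a + ∑ b, e b + m * t - (2 * e a + t) := by
    intro a
    have h2 : (∑ b : Fin m, if a ≠ b ∧ True then e a + e b + t else 0) =
        ∑ b : Fin m, (e a + e b + t) - ∑ b : Fin m, if a = b then e a + e b + t else 0 := by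
      rw [← Finset.sum_sub_distrib]
      refine Finset.sum_congr rfl fun b _ => ?_
      by_cases h : a = b
      · simp [h]
      · simp [h]
    rw [h2, Finset.sum_ite_eq univ a, if_pos (mem_univ a)]
    simp only [Finset.sum_add_distrib, Finset.sum_const, Finset.card_univ, Fintype.card_fin,
      nsmul_eq_mul]
    ring
  rw [Finset.sum_congr rfl fun a _ => h1 a]
  simp only [Finset.sum_add_distrib, Finset.sum_sub_distrib, Finset.sum_const, Finset.card_univ,
    Fintype.card_fin, nsmul_eq_mul, ← Finset.mul_sum]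
  ring

theorem sum_sym {m : ℕ} (e : Fin m → ℤ) (t : ℤ) :
    (∑ a : Fin m, ∑ b : Fin m, (e a + e b + t)) + ∑ a : Fin m, (e a + e a + t) =
      ((m : ℤ) + 1) * (2 * ∑ a, e a + m * t) := by
  simp only [Finset.sum_add_distrib, Finset.sum_const, Finset.card_univ,
    Fintype.card_fin, nsmul_eq_mul, ← Finset.mul_sum]
  ring

/-- alternating blocks -/
theorem exists_bd_alt [CharZero k] {m s : ℕ} (hs : 2 * s < m)
    (M : Matrix (Fin m) (Fin m) (MvPolynomial (Fin N) k)) (hM : ∀ a b, M b a = -M a b)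
    (hMd : ∀ a, M a a = 0) (e : Fin m → ℤ) (t : ℤ) (ψ : Fin m → G →* kˣ) (ω : G →* kˣ)
    (hpos : ∀ a b, a < b → 0 < e a + e b + t)
    (hhom : ∀ a b, a < b → ∀ d : ℕ, (d : ℤ) = e a + e b + t → IsWeightedHomogeneous w (M a b) d)
    (hsemi : ∀ a b, a < b → ∀ g : G, act (fun i => (α i g : k)) (M a b) =
      C ((ψ a g * ψ b g * ω g : kˣ) : k) * M a b) :
    Nonempty (Pool.Agent.R837.FQ.BD k G N w α (((m : ℤ) - 1 - 2 * s) * (2 * ∑ a, e a + m * t))
      (fun p => (M.map (eval p)).rank ≤ 2 * s)) := by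
  classical
  have hlt : ∀ x : K false (fun _ _ : Fin m => True), x.1.1 < x.1.2 := by
    intro x
    rcases x.2.1 with h | h
    · exact h
    · exact absurd h.1 (by simp)
  have hsum := two_sum_false (fun _ _ : Fin m => True) (fun _ _ _ => trivial)
    (fun a b => e a + e b + t) (fun a b => by ring)
  have hsum' : 2 * ∑ x : K false (fun _ _ : Fin m => True), (e x.1.1 + e x.1.2 + t) =
      ((m : ℤ) - 1) * (2 * ∑ a, e a + m * t) := by
    rw [← sum_alt]
    convert hsum
  have hpos' : ∀ x : K false (fun _ _ : Fin m => True), 0 < e x.1.1 + e x.1.2 + t :=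
    fun x => hpos _ _ (hlt x)
  rcases Nat.even_or_odd' m with ⟨n, hn | hn⟩
  · -- even size
    obtain ⟨h, rfl⟩ : ∃ h, n = h + 1 := ⟨n - 1, by omega⟩
    have hD : 0 < ∑ a, e a + ((h : ℤ) + 1) * t := by
      have h0 : 0 < ∑ x : K false (fun _ _ : Fin m => True), (e x.1.1 + e x.1.2 + t) := by
        refine Finset.sum_pos (fun x _ => hpos' x) ?_
        refine ⟨⟨(⟨0, by omega⟩, ⟨1, by omega⟩), Or.inl ?_, trivial⟩, mem_univ _⟩
        show (0 : ℕ) < 1
        omega
      have hmZ : (m : ℤ) = 2 * (h + 1) := by rw [hn]; push_cast; ring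
      have h2 : 0 < (2 * (2 * (h : ℤ) + 1)) * (∑ a, e a + ((h : ℤ) + 1) * t) := by
        have h3 : (2 * (2 * (h : ℤ) + 1)) * (∑ a, e a + ((h : ℤ) + 1) * t) =
            2 * ∑ x : K false (fun _ _ : Fin m => True), (e x.1.1 + e x.1.2 + t) := by
          rw [hsum', hmZ]; ring
        rw [h3]; linarith
      exact (pos_iff_pos_of_mul_pos h2).1 (by positivity)
    refine exists_bd false (fun _ _ => True) (fun _ _ _ => trivial)
      (fun _ _ _ _ _ _ _ => trivial) M (fun a b => by rw [hM]; simp [sg]) (fun _ => hMd)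
      (fun a b h => absurd trivial h) e t ψ ω hpos' (fun x => hhom _ _ (hlt x))
      (fun x => hsemi _ _ (hlt x)) s h (by omega) s _ hD ((∏ a, ψ a) * ω ^ (h + 1)) ?_ ?_ _ ?_
    · intro R hR
      obtain ⟨B, h1, h2, h3⟩ := comb_alt' (V := Fin m) (sym := false) (R := R) hR rfl s h
        (Or.inr (by rw [Fintype.card_fin]; omega)) (by omega)
      exact ⟨B, h1, h2, h3.imp id fun h => ⟨h.1, rfl, h.2.2⟩⟩
    · intro _ g μ hadm
      have h1 := prod_pf (n := h + 1) (by rw [Fintype.card_fin]; omega) hadm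
      rw [rc_prod, rc_pow, rc_mul_rc] at h1
      have e1 : ((∏ a, ψ a) * ω ^ (h + 1)) g = (∏ a, ψ a g) * ω g ^ (h + 1) := by
        simp [MonoidHom.finsetProd_apply]
      rw [e1, ← h1]
      congr 1
    · have hmZ : (m : ℤ) = 2 * (h + 1) := by rw [hn]; push_cast; ring
      have hq : (s : ℤ) * (h - max (h : ℤ) 1) = 0 := by
        rcases Nat.eq_zero_or_pos h with h5 | h5
        · have h6 : s = 0 := by omega
          rw [h6]; simp
        · rw [max_eq_left (by exact_mod_cast h5), sub_self, mul_zero]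
      rw [hmZ] at hsum' ⊢
      linear_combination (-((max (h : ℤ) 1) - s)) * hsum' +
        4 * (∑ a, e a + ((h : ℤ) + 1) * t) * hq
  · -- odd size
    refine exists_bd false (fun _ _ => True) (fun _ _ _ => trivial)
      (fun _ _ _ _ _ _ _ => trivial) M (fun a b => by rw [hM]; simp [sg]) (fun _ => hMd)
      (fun a b h => absurd trivial h) e t ψ ω hpos' (fun x => hhom _ _ (hlt x))
      (fun x => hsemi _ _ (hlt x)) s n (by omega) 0 1 one_pos 1 ?_ ?_ _ ?_
    · intro R hR
      obtain ⟨B, h1, h2, h3⟩ := comb_alt' (V := Fin m) (sym := false) (R := R) hR rfl s n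
        (Or.inl (by rw [Fintype.card_fin]; omega)) (by omega)
      refine ⟨B, h1, h2, Or.inl ?_⟩
      rcases h3 with h3 | h3
      · exact h3
      · have := h3.2.1
        rw [Fintype.card_fin] at this
        omega
    · intro h
      exact absurd rfl h
    · have hmZ : (m : ℤ) = 2 * n + 1 := by rw [hn]; push_cast; ring
      have hq : (s : ℤ) * (n - max (n : ℤ) 1) = 0 := by
        rcases Nat.eq_zero_or_pos n with h5 | h5
        · have h6 : s = 0 := by omega
          rw [h6]; simp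
        · rw [max_eq_left (by exact_mod_cast h5), sub_self, mul_zero]
      rw [hmZ] at hsum' ⊢
      push_cast
      linear_combination (-((max (n : ℤ) 1) - s)) * hsum' +
        2 * (2 * ∑ a, e a + (2 * (n : ℤ) + 1) * t) * hq

/-- symmetric blocks -/
theorem exists_bd_sym [CharZero k] {m s : ℕ} (hs : 2 * s < m) (hodd : Odd m)
    (M : Matrix (Fin m) (Fin m) (MvPolynomial (Fin N) k)) (hM : ∀ a b, M b a = M a b)
    (e : Fin m → ℤ) (t : ℤ) (ψ : Fin m → G →* kˣ) (ω : G →* kˣ)
    (hpos : ∀ a b, a ≤ b → 0 < e a + e b + t)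
    (hhom : ∀ a b, a ≤ b → ∀ d : ℕ, (d : ℤ) = e a + e b + t → IsWeightedHomogeneous w (M a b) d)
    (hsemi : ∀ a b, a ≤ b → ∀ g : G, act (fun i => (α i g : k)) (M a b) =
      C ((ψ a g * ψ b g * ω g : kˣ) : k) * M a b) :
    Nonempty (Pool.Agent.R837.FQ.BD k G N w α (((m : ℤ) + 1 - 2 * s) * (2 * ∑ a, e a + m * t))
      (fun p => (M.map (eval p)).rank ≤ 2 * s)) := by
  classical
  have hle : ∀ x : K true (fun _ _ : Fin m => True), x.1.1 ≤ x.1.2 := by
    intro x
    rcases x.2.1 with h | h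
    · exact h.le
    · exact h.2.le
  have hsum := two_sum_true (V := Fin m) (fun a b => e a + e b + t) (fun a b => by ring)
  have hsum' : 2 * ∑ x : K true (fun _ _ : Fin m => True), (e x.1.1 + e x.1.2 + t) =
      ((m : ℤ) + 1) * (2 * ∑ a, e a + m * t) := by
    rw [← sum_sym]
    convert hsum
  have hpos' : ∀ x : K true (fun _ _ : Fin m => True), 0 < e x.1.1 + e x.1.2 + t :=
    fun x => hpos _ _ (hle x)
  obtain ⟨h, hh⟩ := hodd
  have hD : 0 < 2 * ∑ a, e a + (m : ℤ) * t := by
    have h0 : 0 < ∑ a : Fin m, (e a + e a + t) := by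
      refine Finset.sum_pos (fun a _ => hpos a a le_rfl) ⟨⟨0, by omega⟩, mem_univ _⟩
    simp only [Finset.sum_add_distrib, Finset.sum_const, Finset.card_univ,
      Fintype.card_fin, nsmul_eq_mul] at h0
    linarith
  refine exists_bd true (fun _ _ => True) (fun _ _ _ => trivial)
    (fun _ _ _ _ _ _ _ => trivial) M (fun a b => by rw [hM]; simp [sg])
    (fun h => absurd h (by simp))
    (fun a b h => absurd trivial h) e t ψ ω hpos' (fun x => hhom _ _ (hle x))
    (fun x => hsemi _ _ (hle x)) s h (by omega) s _ hD ((∏ a, ψ a) ^ 2 * ω ^ m) ?_ ?_ _ ?_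
  · intro R hR
    obtain ⟨B, h1, h2, h3⟩ := comb_sym (V := Fin m) (sym := true) (R := R) hR rfl s h
      (by rw [Fintype.card_fin]; omega) (by omega)
    exact ⟨B, h1, h2, h3.imp id fun h => ⟨h.1, rfl, h.2⟩⟩
  · intro _ g μ hadm
    have h1 := prod_sq hadm
    rw [Fintype.card_fin, rc_prod, rc_pow, rc_pow, rc_mul_rc] at h1
    have e1 : ((∏ a, ψ a) ^ 2 * ω ^ m) g = (∏ a, ψ a g) ^ 2 * ω g ^ m := by
      simp [MonoidHom.finsetProd_apply]
    rw [e1, ← h1]
    congr 1
  · have hmZ : (m : ℤ) = 2 * h + 1 := by rw [hh]; push_cast; ring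
    have hq : (s : ℤ) * (h - max (h : ℤ) 1) = 0 := by
      rcases Nat.eq_zero_or_pos h with h5 | h5
      · have h6 : s = 0 := by omega
        rw [h6]; simp
      · rw [max_eq_left (by exact_mod_cast h5), sub_self, mul_zero]
    rw [hmZ] at hsum' ⊢
    linear_combination (-((max (h : ℤ) 1) - s)) * hsum' +
      2 * (2 * ∑ a, e a + (2 * (h : ℤ) + 1) * t) * hq

/-! ### generic blocks -/

/-- rows and columns on different sides -/
def Opp {n : ℕ} (a b : Fin n ⊕ₗ Fin n) : Prop := (ofLex a).isLeft ≠ (ofLex b).isLeft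

theorem Opp.symm {n : ℕ} {a b : Fin n ⊕ₗ Fin n} (h : Opp a b) : Opp b a := fun h' => h h'.symm

theorem Opp.three {n : ℕ} (a b c d : Fin n ⊕ₗ Fin n) (h1 : Opp a b) (h2 : Opp b c) (h3 : Opp c d) :
    Opp a d := by
  unfold Opp at *
  revert h1 h2 h3
  cases (ofLex a).isLeft <;> cases (ofLex b).isLeft <;> cases (ofLex c).isLeft <;>
    cases (ofLex d).isLeft <;> simp

/-- the alternating matrix with a given off-diagonal block -/
def dbl {n : ℕ} {S : Type*} [CommRing S] (A : Matrix (Fin n) (Fin n) S) :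
    Matrix (Fin n ⊕ₗ Fin n) (Fin n ⊕ₗ Fin n) S :=
  (Matrix.fromBlocks 0 A (-A.transpose) 0).submatrix ofLex ofLex

theorem dbl_map {n : ℕ} {S S' : Type*} [CommRing S] [CommRing S'] (A : Matrix (Fin n) (Fin n) S)
    (f : S →+* S') : (dbl A).map f = dbl (A.map f) := by
  ext a b
  simp only [dbl, Matrix.map_apply, Matrix.submatrix_apply]
  rcases ofLex a with i | i <;> rcases ofLex b with j | j <;> simp

theorem rank_dbl {n : ℕ} (A : Matrix (Fin n) (Fin n) k) : (dbl A).rank = 2 * A.rank := by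
  have h1 : (dbl A).rank = (Matrix.fromBlocks 0 A (-A.transpose) 0).rank :=
    Matrix.rank_submatrix (Matrix.fromBlocks 0 A (-A.transpose) 0) ofLex ofLex
  have h2 : (Matrix.fromBlocks 0 A (-A.transpose) 0).rank =
      (Matrix.fromBlocks A 0 0 (-A.transpose)).rank := by
    rw [← Matrix.rank_submatrix (Matrix.fromBlocks 0 A (-A.transpose) 0) (Equiv.refl _)
      (Equiv.sumComm (Fin n) (Fin n))]
    congr 1
    ext a b
    rcases a with i | i <;> rcases b with j | j <;> simp
  have h3 : (-A.transpose).rank = A.rank := by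
    have h4 : (-A.transpose) = (-1 : Matrix (Fin n) (Fin n) k) * A.transpose := by simp
    rw [h4, Matrix.rank_mul_eq_right_of_isUnit_det, Matrix.rank_transpose]
    rw [Matrix.det_neg]
    simp
  rw [h1, h2, Pool.Agent.H361R3.rank_fromBlocks_diag, h3]
  ring

theorem K_opp {n : ℕ} (x : K false (Opp (n := n))) :
    ∃ i j, x.1.1 = toLex (Sum.inl i) ∧ x.1.2 = toLex (Sum.inr j) := by
  obtain ⟨⟨a, b⟩, h1, h2⟩ := x
  have h3 : a < b := by
    rcases h1 with h | h
    · exact h
    · exact absurd h.1 (by simp)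
  obtain ⟨a, rfl⟩ := (toLex (α := Fin n ⊕ Fin n)).surjective a
  obtain ⟨b, rfl⟩ := (toLex (α := Fin n ⊕ Fin n)).surjective b
  rcases a with i | i <;> rcases b with j | j
  · exact absurd rfl h2
  · exact ⟨i, j, rfl, rfl⟩
  · exact absurd h3 (by simp)
  · exact absurd rfl h2

open Classical in
theorem sum_opp {n : ℕ} (f : Fin n ⊕ₗ Fin n → Fin n ⊕ₗ Fin n → ℤ) :
    ∑ x : K false (Opp (n := n)), f x.1.1 x.1.2 =
      ∑ i, ∑ j, f (toLex (Sum.inl i)) (toLex (Sum.inr j)) := by
  rw [← Fintype.sum_prod_type' (f := fun i j => f (toLex (Sum.inl i)) (toLex (Sum.inr j)))]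
  symm
  refine Finset.sum_bij (fun p _ => ⟨(toLex (Sum.inl p.1), toLex (Sum.inr p.2)),
    Or.inl (by simp), by simp [Opp]⟩) ?_ ?_ ?_ ?_
  · intro p _
    exact mem_univ _
  · intro p _ q _ h
    have h1 := congrArg (fun z : K false (Opp (n := n)) => z.1) h
    simp only [Prod.mk.injEq, EmbeddingLike.apply_eq_iff_eq, Sum.inl.injEq, Sum.inr.injEq] at h1
    exact Prod.ext h1.1 h1.2
  · intro x _
    obtain ⟨i, j, h1, h2⟩ := K_opp x
    exact ⟨(i, j), mem_univ _, Subtype.ext (Prod.ext h1.symm h2.symm)⟩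
  · intro p _
    rfl

/-- generic square blocks -/
theorem exists_bd_gen [CharZero k] {n s : ℕ} (hs : s < n) (A : Matrix (Fin n) (Fin n) (MvPolynomial (Fin N) k))
    (x y : Fin n → ℤ) (ψ φ : Fin n → G →* kˣ)
    (hpos : ∀ i j, 0 < x i + y j)
    (hhom : ∀ i j, ∀ d : ℕ, (d : ℤ) = x i + y j → IsWeightedHomogeneous w (A i j) d)
    (hsemi : ∀ i j, ∀ g : G, act (fun i => (α i g : k)) (A i j) =
      C ((ψ i g * φ j g : kˣ) : k) * A i j) :
    Nonempty (Pool.Agent.R837.FQ.BD k G N w α (2 * (((n : ℤ) - s) * (∑ i, x i + ∑ j, y j)))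
      (fun p => (A.map (eval p)).rank ≤ s)) := by
  classical
  set e : Fin n ⊕ₗ Fin n → ℤ := fun a => Sum.elim x y (ofLex a) with he
  set ψ' : Fin n ⊕ₗ Fin n → G →* kˣ := fun a => Sum.elim ψ φ (ofLex a) with hψ'
  have hsumK : ∑ z : K false (Opp (n := n)), (e z.1.1 + e z.1.2 + 0) =
      n * (∑ i, x i + ∑ j, y j) := by
    rw [sum_opp (fun a b => e a + e b + 0)]
    simp only [he, ofLex_toLex, Sum.elim_inl, Sum.elim_inr, add_zero]
    simp only [Finset.sum_add_distrib, Finset.sum_const, Finset.card_univ,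
      Fintype.card_fin, nsmul_eq_mul, ← Finset.mul_sum]
    ring
  have hsume : ∑ a, e a = ∑ i, x i + ∑ j, y j := by
    have h1 : ∑ a, e a = ∑ a : Fin n ⊕ Fin n, Sum.elim x y a :=
      Equiv.sum_comp (ofLex : (Fin n ⊕ₗ Fin n) ≃ (Fin n ⊕ Fin n)) (Sum.elim x y)
    rw [h1, Fintype.sum_sum_type]
    simp
  have hprodψ : ∀ g, ∏ a, ψ' a g = (∏ i, ψ i g) * ∏ j, φ j g := by
    intro g
    have h1 : ∏ a, ψ' a g = ∏ a : Fin n ⊕ Fin n, Sum.elim ψ φ a g :=
      Equiv.prod_comp (ofLex : (Fin n ⊕ₗ Fin n) ≃ (Fin n ⊕ Fin n)) (fun a => Sum.elim ψ φ a g)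
    rw [h1, Fintype.prod_sum_type]
    simp
  have hpos' : ∀ z : K false (Opp (n := n)), 0 < e z.1.1 + e z.1.2 + 0 := by
    intro z
    obtain ⟨i, j, h1, h2⟩ := K_opp z
    rw [h1, h2, add_zero]
    exact hpos i j
  have hD : 0 < ∑ i, x i + ∑ j, y j := by
    have h0 : 0 < ∑ i : Fin n, (x i + y i) :=
      Finset.sum_pos (fun i _ => hpos i i) ⟨⟨0, by omega⟩, mem_univ _⟩
    rwa [Finset.sum_add_distrib] at h0
  obtain ⟨h, hh⟩ : ∃ h, n = h + 1 := ⟨n - 1, by omega⟩
  have hcard : Fintype.card (Fin n ⊕ₗ Fin n) = 2 * n := by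
    have h1 : Fintype.card (Fin n ⊕ₗ Fin n) = Fintype.card (Fin n ⊕ Fin n) :=
      Fintype.card_congr ofLex
    rw [h1, Fintype.card_sum, Fintype.card_fin]
    ring
  obtain ⟨bd⟩ := exists_bd (w := w) (α := α) false (Opp (n := n)) (fun a b => Opp.symm) Opp.three
    (dbl A)
    (fun a b => by
      simp only [dbl, Matrix.submatrix_apply]
      rcases ofLex a with i | i <;> rcases ofLex b with j | j <;> simp [sg])
    (fun _ a => by
      simp only [dbl, Matrix.submatrix_apply]
      rcases ofLex a with i | i <;> simp)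
    (fun a b hab => by
      unfold Opp at hab
      simp only [dbl, Matrix.submatrix_apply]
      generalize ofLex a = a' at hab ⊢
      generalize ofLex b = b' at hab ⊢
      rcases a' with i | i <;> rcases b' with j | j <;> simp at hab ⊢)
    e 0 ψ' 1 hpos'
    (fun z d hd => by
      obtain ⟨i, j, h1, h2⟩ := K_opp z
      rw [h1, h2] at hd ⊢
      rw [add_zero] at hd
      exact hhom i j d hd)
    (fun z g => by
      obtain ⟨i, j, h1, h2⟩ := K_opp z
      rw [h1, h2]
      have h3 := hsemi i j g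
      simp only [dbl, Matrix.submatrix_apply, ofLex_toLex, Matrix.fromBlocks_apply₁₂, hψ',
        Sum.elim_inl, Sum.elim_inr, MonoidHom.one_apply, mul_one]
      exact h3)
    s h (by omega) s _ hD ((∏ i, ψ i) * ∏ j, φ j)
    (fun R hR => by
      obtain ⟨B, h1, h2, h3⟩ := comb_alt' (V := Fin n ⊕ₗ Fin n) (sym := false) (R := R) hR rfl s h
        (Or.inr (by rw [hcard]; omega)) (by omega)
      exact ⟨B, h1, h2, h3.imp id fun h => ⟨h.1, rfl, h.2.2⟩⟩)
    (fun _ g μ hadm => by
      have h1 := prod_pf (n := n) hcard hadm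
      rw [rc_prod, rc_pow, rc_mul_rc] at h1
      have e1 : ((∏ i, ψ i) * ∏ j, φ j) g = (∏ i, ψ i g) * ∏ j, φ j g := by
        simp [MonoidHom.finsetProd_apply]
      rw [e1, ← h1, hprodψ, hsume]
      congr 1
      · simp
      · simp)
    (2 * (((n : ℤ) - s) * (∑ i, x i + ∑ j, y j)))
    (by
      rw [hsumK]
      have hq : (s : ℤ) * (h - max (h : ℤ) 1) = 0 := by
        rcases Nat.eq_zero_or_pos h with h5 | h5
        · have h6 : s = 0 := by omega
          rw [h6]; simp
        · rw [max_eq_left (by exact_mod_cast h5), sub_self, mul_zero]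
      have hnZ : (n : ℤ) = h + 1 := by rw [hh]; push_cast; ring
      rw [hnZ]
      linear_combination 2 * (∑ i, x i + ∑ j, y j) * hq)
  exact ⟨{ bd with
    rank := fun p hrk => by
      have h1 := bd.rank p hrk
      have h2 : (dbl A).map (eval p) = dbl (A.map (eval p)) := dbl_map A (eval p)
      rw [h2, rank_dbl] at h1
      omega }⟩

end

end Pool.Agent.N830.PS
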