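import Pool.Agent.R837.FQ.Total
import Pool.Agent.Y374.PF.Degree

/-!
# The data of an alternating or symmetric block, for the averaged inequality
-/

set_option autoImplicit false
set_option linter.unusedSectionVars false

namespace Pool.Agent.N830.PS

open Finset MvPolynomial Pool.Agent.R837.FE
open Pool.Agent.TH144.NV (act)

section group
variable {Γ : Type*} [CommGroup Γ] {V : Type*} [Fintype V] [LinearOrder V]

/-- entries of trivial character -/
def Rel (ok : V → V → Prop) (y : V → Γ) (z : Γ) (a b : V) : Prop := ok a b ∧ y a * y b * z = 1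

theorem Rel.symm {ok : V → V → Prop} (hok : ∀ a b, ok a b → ok b a) {y : V → Γ} {z : Γ} {a b : V}
    (h : Rel ok y z a b) : Rel ok y z b a := ⟨hok _ _ h.1, by rw [mul_comm (y b)]; exact h.2⟩

theorem Rel.three {ok : V → V → Prop} (hok3 : ∀ a b c d, ok a b → ok b c → ok c d → ok a d)
    {y : V → Γ} {z : Γ} {a b c d : V}
    (h1 : Rel ok y z a b) (h2 : Rel ok y z b c) (h3 : Rel ok y z c d) : Rel ok y z a d := by
  refine ⟨hok3 _ _ _ _ h1.1 h2.1 h3.1, ?_⟩
  have e : y a * y d * z * (y b * y c * z) = (y a * y b * z) * (y c * y d * z) := by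
    rw [mul_mul_mul_comm (y a * y d), mul_mul_mul_comm (y a * y b)]
    congr 1
    rw [mul_comm (y b) (y c), mul_mul_mul_comm, mul_mul_mul_comm (y a) (y b), mul_comm (y d) (y b)]
  rw [h2.2, h1.2, h3.2, mul_one, mul_one] at e
  exact e

/-- the character of the determinant -/
theorem prod_sq {ok : V → V → Prop} {sym : Bool} {y : V → Γ} {z : Γ}
    (h : Adm sym (Rel ok y z) univ) : (∏ a, y a) ^ 2 * z ^ Fintype.card V = 1 := by
  obtain ⟨π, -, h2, h3, -⟩ := h
  have h4 : ∏ a, (y a * y (π a) * z) = 1 := Finset.prod_eq_one fun a ha => (h3 a ha).2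
  rw [Finset.prod_mul_distrib, Finset.prod_mul_distrib, Finset.prod_const, Finset.card_univ] at h4
  have hinv : Function.Involutive π := fun a => h2 a (mem_univ a)
  have h5 : ∏ a, y (π a) = ∏ a, y a := Equiv.prod_comp hinv.toPerm y
  rw [h5, ← pow_two] at h4
  exact h4

/-- the character of the Pfaffian -/
theorem prod_pf {ok : V → V → Prop} {y : V → Γ} {z : Γ} {n : ℕ} (hn : Fintype.card V = 2 * n)
    (h : Adm false (Rel ok y z) univ) : (∏ a, y a) * z ^ n = 1 := by
  classical
  obtain ⟨π, -, h2, h3, h4⟩ := h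
  have hinv : ∀ a, π (π a) = a := fun a => h2 a (mem_univ a)
  have hne : ∀ a, π a ≠ a := fun a => h4 rfl a (mem_univ a)
  set S : Finset V := univ.filter fun a => a < π a with hS
  set S' : Finset V := univ.filter fun a => ¬ a < π a with hS'
  have hmap : ∀ a ∈ S, π a ∈ S' := by
    intro a ha
    rw [hS, mem_filter] at ha
    rw [hS', mem_filter, hinv]
    exact ⟨mem_univ _, not_lt_of_gt ha.2⟩
  have hmap' : ∀ a ∈ S', π a ∈ S := by
    intro a ha
    rw [hS', mem_filter] at ha
    rw [hS, mem_filter, hinv]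
    exact ⟨mem_univ _, lt_of_le_of_ne (not_lt.1 ha.2) (hne a)⟩
  have h5 : ∏ a ∈ S', y a = ∏ a ∈ S, y (π a) :=
    (Finset.prod_nbij' π π hmap hmap' (fun a _ => hinv a) (fun a _ => hinv a)
      (fun a _ => rfl)).symm
  have h6 : S.card = S'.card :=
    Finset.card_nbij' π π hmap hmap' (fun a _ => hinv a) (fun a _ => hinv a)
  have h7 : S.card + S'.card = 2 * n := by
    rw [← hn, ← Finset.card_univ, hS, hS']
    exact Finset.card_filter_add_card_filter_not _
  have h8 : S.card = n := by omega
  rw [← Finset.prod_filter_mul_prod_filter_not univ (fun a => a < π a) y, ← hS, ← hS', h5,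
    ← Finset.prod_mul_distrib, ← h8, ← Finset.prod_const, ← Finset.prod_mul_distrib]
  exact Finset.prod_eq_one fun a _ => (h3 a (mem_univ a)).2

end group

section sums
variable {V : Type*} [Fintype V] [LinearOrder V]

theorem sum_K (sym : Bool) (ok : V → V → Prop) [Fintype (K sym ok)] (f : V → V → ℤ)
    [DecidablePred (Pos sym ok)] :
    ∑ x : K sym ok, f x.1.1 x.1.2 = ∑ a, ∑ b, if Pos sym ok (a, b) then f a b else 0 := by
  rw [← Fintype.sum_prod_type' (f := fun a b => if Pos sym ok (a, b) then f a b else 0),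
    ← Finset.sum_filter]
  refine Finset.sum_bij (fun x _ => x.1) ?_ ?_ ?_ ?_
  · intro x _
    exact mem_filter.2 ⟨mem_univ _, x.2⟩
  · intro x _ y _ h
    exact Subtype.ext h
  · intro x hx
    exact ⟨⟨x, (mem_filter.1 hx).2⟩, mem_univ _, rfl⟩
  · intro x _
    rfl

open Classical in
/-- twice the sum over the entries above the diagonal -/
theorem two_sum_false (ok : V → V → Prop) (hok : ∀ a b, ok a b → ok b a) (f : V → V → ℤ)
    (hf : ∀ a b, f a b = f b a) :
    2 * ∑ x : K false ok, f x.1.1 x.1.2 = ∑ a, ∑ b, if a ≠ b ∧ ok a b then f a b else 0 := by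
  rw [sum_K]
  have h1 : ∑ a, ∑ b, (if Pos false ok (a, b) then f a b else 0) =
      ∑ a, ∑ b, (if Pos false ok (b, a) then f a b else 0) := by
    rw [Finset.sum_comm]
    refine Finset.sum_congr rfl fun a _ => Finset.sum_congr rfl fun b _ => ?_
    rw [hf b a]
  rw [two_mul]
  nth_rw 2 [h1]
  rw [← Finset.sum_add_distrib]
  refine Finset.sum_congr rfl fun a _ => ?_
  rw [← Finset.sum_add_distrib]
  refine Finset.sum_congr rfl fun b _ => ?_
  have hP : ∀ a b, Pos false ok (a, b) ↔ a < b ∧ ok a b := by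
    intro a b
    unfold Pos
    simp
  simp only [hP]
  rcases lt_trichotomy a b with h | h | h
  · by_cases h2 : ok a b
    · have h3 : ok b a := hok _ _ h2
      simp [h, h.ne, h2, h3, h.not_gt]
    · simp [h2, h.not_gt]
  · subst h
    simp
  · by_cases h2 : ok a b
    · have h3 : ok b a := hok _ _ h2
      simp [h, h.ne', h2, h3, h.not_gt]
    · have h3 : ¬ ok b a := fun h3 => h2 (hok _ _ h3)
      simp [h2, h3]

open Classical in
/-- twice the sum over the entries on and above the diagonal -/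
theorem two_sum_true (f : V → V → ℤ) (hf : ∀ a b, f a b = f b a) :
    2 * ∑ x : K true (fun _ _ : V => True), f x.1.1 x.1.2 = ∑ a, ∑ b, f a b + ∑ a, f a a := by
  rw [sum_K]
  have h1 : ∑ a, ∑ b, (if Pos true (fun _ _ : V => True) (a, b) then f a b else 0) =
      ∑ a, ∑ b, (if Pos true (fun _ _ : V => True) (b, a) then f a b else 0) := by
    rw [Finset.sum_comm]
    refine Finset.sum_congr rfl fun a _ => Finset.sum_congr rfl fun b _ => ?_
    rw [hf b a]
  rw [two_mul]
  nth_rw 2 [h1]
  rw [← Finset.sum_add_distrib, ← Finset.sum_add_distrib]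
  refine Finset.sum_congr rfl fun a _ => ?_
  have h2 : f a a = ∑ b, if a = b then f a b else 0 := by simp
  rw [h2, ← Finset.sum_add_distrib, ← Finset.sum_add_distrib]
  refine Finset.sum_congr rfl fun b _ => ?_
  have hP : ∀ a b, Pos true (fun _ _ : V => True) (a, b) ↔ a < b ∨ a = b := by
    intro a b
    unfold Pos
    simp
  simp only [hP]
  rcases lt_trichotomy a b with h | h | h
  · simp [h, h.ne, h.ne', h.not_gt]
  · subst h
    simp
  · simp [h, h.ne, h.ne', h.not_gt]

end sums

section con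
variable {k : Type} [Field k] {G : Type} [Group G] {N : ℕ} {w : Fin N → ℕ} {α : Fin N → G →* kˣ}

/-- the points of the format of the matrices of rank at most `r` with prescribed support -/
theorem ext_of [CharZero k] {V : Type} [Fintype V] [LinearOrder V] (sym : Bool)
    (ok R : V → V → Prop) (hRok : ∀ a b, R a b → ok a b)
    (hR : ∀ a b, R a b → R b a) (hR3 : ∀ a b c d, R a b → R b c → R c d → R a d)
    (B : Finset V) (hB : Adm sym R B) (r : ℕ) (hBr : B.card ≤ r) (live : K sym ok → Prop)
    (hlive : ∀ x, live x ↔ R x.1.1 x.1.2) (P : Finset (K sym ok))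
    (hP : ∀ x, x ∈ P ↔ R x.1.1 x.1.2 ∧ (x.1.1 ∈ B ∨ x.1.2 ∈ B)) :
    Pool.Agent.R837.FQ.Ext k (fun j : (Fin (r + 1) → V) × (Fin (r + 1) → V) =>
      ((mat sym ok fun x => (X x : MvPolynomial (K sym ok) k)).submatrix j.1 j.2).det) live P := by
  classical
  intro L _ _ u hu
  have : CharZero L := charZero_of_injective_algebraMap (algebraMap k L).injective
  let up : K sym R → K sym ok := fun x => ⟨x.1, x.2.1, hRok _ _ x.2.2⟩
  have hup : Function.Injective up := by
    intro x y h
    have h1 := congrArg (fun z : K sym ok => z.1) h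
    exact Subtype.ext h1
  let fl : {x : K sym R // x ∈ tch sym R B} → {x // x ∈ P} := fun x =>
    ⟨up x.1, (hP _).2 ⟨x.1.2.2, (mem_tch (sym := sym) (R := R)).1 x.2⟩⟩
  have hfl : Function.Injective fl := by
    intro x y h
    have h1 := congrArg (fun z : {x // x ∈ P} => z.1) h
    exact Subtype.ext (hup h1)
  have hu' := hu.comp fl hfl
  obtain ⟨z', hz', hrk⟩ := exists_generic' (k := k) sym R hR hR3 B hB (fun x => u (up x)) hu'
  let z : K sym ok → L := fun x => if h : R x.1.1 x.1.2 then z' ⟨x.1, x.2.1, h⟩ else 0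
  refine ⟨z, ?_, ?_, ?_⟩
  · intro x hx
    have h1 := (hP x).1 hx
    simp only [z, dif_pos h1.1]
    exact hz' ⟨x.1, x.2.1, h1.1⟩ (mem_tch.2 h1.2)
  · intro x hx
    have h1 : ¬ R x.1.1 x.1.2 := fun h => hx ((hlive x).2 h)
    simp only [z, dif_neg h1]
  · rintro ⟨f, g⟩
    have hmat : mat sym ok z = mat sym R z' := by
      ext a b
      simp only [mat]
      by_cases hab : R a b
      · have hba : R b a := hR _ _ hab
        have hoab := hRok _ _ hab
        have hoba := hRok _ _ hba
        by_cases h1 : a < b ∨ (sym = true ∧ a = b)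
        · have hp : Pos sym ok (a, b) := ⟨h1, hoab⟩
          have hp' : Pos sym R (a, b) := ⟨h1, hab⟩
          rw [dif_pos hp, dif_pos hp']
          simp only [z]
          rw [dif_pos hab]
        · have hp : ¬ Pos sym ok (a, b) := fun h => h1 h.1
          have hp' : ¬ Pos sym R (a, b) := fun h => h1 h.1
          rw [dif_neg hp, dif_neg hp']
          by_cases h2 : b < a ∨ (sym = true ∧ b = a)
          · have hq : Pos sym ok (b, a) := ⟨h2, hoba⟩
            have hq' : Pos sym R (b, a) := ⟨h2, hba⟩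
            rw [dif_pos hq, dif_pos hq']
            simp only [z]
            rw [dif_pos hba]
          · have hq : ¬ Pos sym ok (b, a) := fun h => h2 h.1
            have hq' : ¬ Pos sym R (b, a) := fun h => h2 h.1
            rw [dif_neg hq, dif_neg hq']
      · have hba : ¬ R b a := fun h => hab (hR _ _ h)
        have hp' : ¬ Pos sym R (a, b) := fun h => hab h.2
        have hq' : ¬ Pos sym R (b, a) := fun h => hba h.2
        rw [dif_neg hp', dif_neg hq']
        split_ifs with h1 h2
        · simp only [z]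
          rw [dif_neg hab]
        · simp only [z]
          rw [dif_neg hba, mul_zero]
        · rfl
    have h1 := (rank_le_iff_minors (mat sym R z') r).1 (hrk.trans hBr) f g
    rw [AlgHom.map_det, ← h1]
    congr 1
    have h2 := mat_map sym ok (fun κ => (X κ : MvPolynomial (K sym ok) k))
      (aeval z : MvPolynomial (K sym ok) k →ₐ[k] L).toRingHom
    have h3 : (fun κ => (aeval z : MvPolynomial (K sym ok) k →ₐ[k] L).toRingHom
        (X κ : MvPolynomial (K sym ok) k)) = z := by
      funext κ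
      exact aeval_X _ _
    rw [h3, hmat] at h2
    rw [← h2]
    rfl

open Classical in
/-- the data of a block -/
theorem exists_bd [CharZero k] {V : Type} [ft : Fintype V] [lo : LinearOrder V] (sym : Bool)
    (ok : V → V → Prop)
    (hok : ∀ a b, ok a b → ok b a) (hok3 : ∀ a b c d, ok a b → ok b c → ok c d → ok a d)
    (M : Matrix V V (MvPolynomial (Fin N) k)) (hM : ∀ a b, M b a = sg _ sym * M a b)
    (hMd : sym = false → ∀ a, M a a = 0) (hMok : ∀ a b, ¬ ok a b → M a b = 0)
    (e : V → ℤ) (t : ℤ) (ψ : V → G →* kˣ) (ω : G →* kˣ)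
    (hpos : ∀ x : K sym ok, 0 < e x.1.1 + e x.1.2 + t)
    (hhom : ∀ (x : K sym ok) (d : ℕ), (d : ℤ) = e x.1.1 + e x.1.2 + t →
      IsWeightedHomogeneous w (M x.1.1 x.1.2) d)
    (hsemi : ∀ (x : K sym ok) (g : G), act (fun i => (α i g : k)) (M x.1.1 x.1.2) =
      C ((ψ x.1.1 g * ψ x.1.2 g * ω g : kˣ) : k) * M x.1.1 x.1.2)
    (s h : ℕ) (hsh : s ≤ h) (c0 : ℕ) (D : ℤ) (hD : 0 < D) (Ξ : G →* kˣ)
    (comb : ∀ R : V → V → Prop, (∀ a b, R a b → R b a) → ∃ B, Adm sym R B ∧ B.card ≤ 2 * s ∧
      (s * Nat.card (K sym R) ≤ h * (tch sym R B).card ∨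
        (Adm sym R univ ∧ c0 = s ∧ s * (Nat.card (K sym R) - 1) ≤ h * (tch sym R B).card)))
    (hΞ : c0 ≠ 0 → ∀ (g : G) (μ : kˣ),
      Adm sym (Rel ok (fun a => rc μ (ψ a g) (e a)) (rc μ (ω g) t)) univ → rc μ (Ξ g) D = 1)
    (top2 : ℤ) (htop : (max h 1 : ℤ) * top2 =
      2 * (((max h 1 : ℤ) - s) * ∑ x : K sym ok, (e x.1.1 + e x.1.2 + t) + c0 * D)) :
    Nonempty (Pool.Agent.R837.FQ.BD k G N w α top2
      (fun p => (M.map (eval p)).rank ≤ 2 * s)) := by
  set q : ℕ := max h 1 with hq
  have hsq : s ≤ q := hsh.trans (le_max_left _ _)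
  set Rg : G → kˣ → V → V → Prop := fun g μ =>
    Rel ok (fun a => rc μ (ψ a g) (e a)) (rc μ (ω g) t) with hRg
  have hR : ∀ g μ a b, Rg g μ a b → Rg g μ b a := fun g μ a b h => Rel.symm hok h
  have hR3 : ∀ g μ a b c d, Rg g μ a b → Rg g μ b c → Rg g μ c d → Rg g μ a d :=
    fun g μ a b c d h1 h2 h3 => Rel.three hok3 h1 h2 h3
  have hRc : ∀ g μ a b, rc μ (ψ a g) (e a) * rc μ (ψ b g) (e b) * rc μ (ω g) t =
      rc μ (ψ a g * ψ b g * ω g) (e a + e b + t) := by
    intro g μ a b
    rw [rc_mul_rc, rc_mul_rc]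
  choose B hB1 hB2 hB3 using fun (g : G) (μ : kˣ) => comb (Rg g μ) (hR g μ)
  have hup : ∀ g μ (x : K sym (Rg g μ)), Pos sym ok x.1 := fun g μ x => ⟨x.2.1, x.2.2.1⟩
  have hnat : ∀ x : K sym ok, ((e x.1.1 + e x.1.2 + t).toNat : ℤ) = e x.1.1 + e x.1.2 + t :=
    fun x => Int.toNat_of_nonneg (hpos x).le
  have hlive : ∀ g μ (x : K sym ok),
      (ψ x.1.1 g * ψ x.1.2 g * ω g = μ ^ (e x.1.1 + e x.1.2 + t).toNat ↔
        Rg g μ x.1.1 x.1.2) := by
    intro g μ x
    rw [← rc_eq_one μ _ _ _ (hnat x), ← hRc]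
    exact ⟨fun h => ⟨x.2.2, h⟩, fun h => h.2⟩
  refine ⟨{
    K := K sym ok
    ftK := inferInstance
    J := (Fin (2 * s + 1) → V) × (Fin (2 * s + 1) → V)
    g := fun j => ((mat sym ok fun x => (X x : MvPolynomial (K sym ok) k)).submatrix j.1 j.2).det
    M := fun x => M x.1.1 x.1.2
    dg := fun x => (e x.1.1 + e x.1.2 + t).toNat
    dg_pos := fun x => by
      have := hpos x
      omega
    hom := fun x => hhom x _ (hnat x)
    hg := ?_
    χ := fun x => ψ x.1.1 * ψ x.1.2 * ω
    semi := fun γ x => hsemi x γ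
    rank := ?_
    P := K sym ok ⊕ Unit
    ftP := inferInstance
    c := Sum.elim (fun _ => q - s) (fun _ => c0)
    d := Sum.elim (fun x => (e x.1.1 + e x.1.2 + t).toNat) (fun _ => D.toNat)
    hd := ?_
    X := Sum.elim (fun x => ψ x.1.1 * ψ x.1.2 * ω) (fun _ => Ξ)
    q := q
    hq := lt_of_lt_of_le Nat.one_pos (le_max_right _ _)
    htop := ?_
    pat := ?_ }⟩
  · rintro ⟨r, c⟩
    refine det_hom _ _ (fun i => e (r i)) (fun j => e (c j) + t) ?_
    intro i j
    simp only [Matrix.submatrix_apply, mat]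
    split_ifs with h1 h2
    · right
      refine ⟨_, ?_, isWeightedHomogeneous_X k _ _⟩
      rw [hnat]
      ring
    · right
      refine ⟨(e (c j) + e (r i) + t).toNat, ?_, ?_⟩
      · have := hnat ⟨_, h2⟩
        simp only at this
        rw [this]
        ring
      · have h3 := isWeightedHomogeneous_X k
          (fun x : K sym ok => (e x.1.1 + e x.1.2 + t).toNat) ⟨_, h2⟩
        unfold sg
        split_ifs
        · rw [one_mul]; exact h3
        · rw [neg_one_mul]; exact h3.neg
    · left; rfl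
  · intro p hp
    rw [rank_le_iff_minors]
    intro f g
    have hmat : mat sym ok (fun x => eval p (M x.1.1 x.1.2)) = M.map (eval p) := by
      have h1 := mat_of sym ok hok (M.map (eval p)) (by
        intro a b
        simp only [Matrix.map_apply]
        rw [hM a b, map_mul]
        congr 1
        unfold sg
        split_ifs <;> simp) (by
        intro hs a
        simp only [Matrix.map_apply, hMd hs a, map_zero]) (by
        intro a b hab
        simp only [Matrix.map_apply, hMok a b hab, map_zero])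
      exact h1
    have h1 := hp (f, g)
    simp only at h1
    rw [RingHom.map_det] at h1
    rw [← h1, ← hmat]
    congr 1
    have h2 := mat_map sym ok (fun κ => (X κ : MvPolynomial (K sym ok) k))
      (eval (fun x : K sym ok => eval p (M x.1.1 x.1.2)))
    simp only [eval_X] at h2
    rw [← h2]
    rfl
  · rintro (x | x)
    · have := hpos x
      simp only [Sum.elim_inl]
      omega
    · simp only [Sum.elim_inr]
      omega
  · rw [Fintype.sum_sum_type]
    simp only [Sum.elim_inl, Sum.elim_inr]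
    have h1 : ∑ x : K sym ok, ((q - s : ℕ) : ℤ) * ((e x.1.1 + e x.1.2 + t).toNat : ℤ) =
        ((q : ℤ) - s) * ∑ x : K sym ok, (e x.1.1 + e x.1.2 + t) := by
      rw [Finset.mul_sum]
      refine Finset.sum_congr rfl fun x _ => ?_
      rw [hnat, Nat.cast_sub hsq]
    have h2 : ∑ x : Unit, (c0 : ℤ) * (D.toNat : ℤ) = c0 * D := by
      rw [Fintype.sum_unique, Int.toNat_of_nonneg hD.le]
    rw [h1, h2]
    have h3 : ((q : ℕ) : ℤ) = max (h : ℤ) 1 := by
      rw [hq]; push_cast; rfl
    rw [h3]
    exact htop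
  · intro g μ
    set Pt : Finset (K sym ok) := univ.filter fun x =>
      Rg g μ x.1.1 x.1.2 ∧ (x.1.1 ∈ B g μ ∨ x.1.2 ∈ B g μ) with hPt
    refine ⟨Pt, ?_, ?_⟩
    · exact ext_of sym ok (Rg g μ) (fun a b h => h.1) (hR g μ) (hR3 g μ) (B g μ) (hB1 g μ)
        (2 * s) (hB2 g μ) _ (fun x => hlive g μ x) Pt (fun x => by simp [hPt])
    intro A hA E hE
    set Kc : ℕ := Nat.card (K sym (Rg g μ)) with hKc
    set Tc : ℕ := (tch sym (Rg g μ) (B g μ)).card with hTc
    have hAc : A.card = Kc := by
      rw [hKc, Nat.card_eq_fintype_card, ← Finset.card_univ]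
      symm
      refine Finset.card_bij (fun x _ => ⟨x.1, hup g μ x⟩) ?_ ?_ ?_
      · intro x _
        exact (hA _).2 ((hlive g μ ⟨x.1, hup g μ x⟩).2 x.2.2)
      · intro x _ y _ h
        have h9 := congrArg (fun z : K sym ok => z.1) h
        exact Subtype.ext h9
      · intro x hx
        have h2 := (hlive g μ x).1 ((hA x).1 hx)
        exact ⟨⟨x.1, x.2.1, h2⟩, mem_univ _, rfl⟩
    have hPc : Pt.card = Tc := by
      rw [hTc]
      symm
      refine Finset.card_bij (fun x _ => ⟨x.1, hup g μ x⟩) ?_ ?_ ?_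
      · intro x hx
        rw [hPt, mem_filter]
        exact ⟨mem_univ _, x.2.2, (mem_tch (sym := sym) (R := Rg g μ)).1 hx⟩
      · intro x _ y _ h
        have h9 := congrArg (fun z : K sym ok => z.1) h
        exact Subtype.ext h9
      · intro x hx
        rw [hPt, mem_filter] at hx
        exact ⟨⟨x.1, x.2.1, hx.2.1⟩, mem_tch.2 hx.2.2, rfl⟩
    rw [hAc, hPc]
    have hmem : ∀ x : K sym ok, (Sum.inl x : K sym ok ⊕ Unit) ∈ E ↔ Rg g μ x.1.1 x.1.2 := by
      intro x
      rw [hE]
      exact hlive g μ x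
    have hsum : ∑ p ∈ E, Sum.elim (fun _ : K sym ok => q - s) (fun _ : Unit => c0) p =
        (q - s) * Kc + (if (Sum.inr () : K sym ok ⊕ Unit) ∈ E then c0 else 0) := by
      have h1 : ∑ p ∈ E, Sum.elim (fun _ : K sym ok => q - s) (fun _ : Unit => c0) p =
          ∑ p, if p ∈ E then Sum.elim (fun _ : K sym ok => q - s) (fun _ : Unit => c0) p else 0 := by
        rw [Finset.sum_ite_mem, Finset.univ_inter]
      rw [h1, Fintype.sum_sum_type]
      simp only [Sum.elim_inl, Sum.elim_inr]
      congr 1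
      rw [← Finset.sum_filter, Finset.sum_const, smul_eq_mul, mul_comm]
      congr 1
      rw [← hAc]
      congr 1
      ext x
      rw [mem_filter, hmem, hA]
      exact ⟨fun h => (hlive g μ x).2 h.2, fun h => ⟨mem_univ _, (hlive g μ x).1 h⟩⟩
    rw [hsum]
    have hTK : Tc ≤ Kc := by
      rw [hTc, hKc, Nat.card_eq_fintype_card]
      exact Finset.card_le_univ _
    refine ⟨hTK, ?_⟩
    have hhq : h * Tc ≤ q * Tc := Nat.mul_le_mul_right _ (le_max_left _ _)
    obtain ⟨u, hu⟩ := Nat.exists_eq_add_of_le hTK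
    obtain ⟨v, hv⟩ := Nat.exists_eq_add_of_le hsq
    have e1 : Kc - Tc = u := by omega
    have e2 : q - s = v := by omega
    rw [e1, e2]
    rcases hB3 g μ with h1 | ⟨h1, h2, h3⟩
    · have h4 : s * Kc ≤ q * Tc := h1.trans hhq
      have h5 : q * u ≤ v * Kc := by
        rw [hu] at h4 ⊢
        rw [hv] at h4 ⊢
        nlinarith
      omega
    · by_cases hs0 : s = 0
      · have h5 : q * u ≤ v * Kc := by
          rw [hu, hv, hs0, zero_add]
          exact Nat.mul_le_mul_left _ (by omega)
        omega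
      · have hin : (Sum.inr () : K sym ok ⊕ Unit) ∈ E := by
          rw [hE]
          simp only [Sum.elim_inr]
          rw [← rc_eq_one μ _ D _ (Int.toNat_of_nonneg hD.le)]
          exact hΞ (by omega) g μ h1
        rw [if_pos hin, h2]
        rcases Nat.eq_zero_or_pos Kc with hK0 | hK0
        · have : u = 0 := by omega
          rw [this]
          simp
        · obtain ⟨m, hm⟩ : ∃ m, Kc = m + 1 := ⟨Kc - 1, by omega⟩
          have h4 : s * m ≤ q * Tc := by
            have h3' : s * (Kc - 1) ≤ h * Tc := h3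
            rw [hm, Nat.add_sub_cancel] at h3'
            exact h3'.trans hhq
          have h6 : q * (m + 1) = q * Tc + q * u := by
            rw [← hm, hu, mul_add]
          have h7 : q * (m + 1) = s * m + s + v * (m + 1) := by
            rw [hv]; ring
          rw [hm]
          omega

end con

end Pool.Agent.N830.PS
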